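import Mathlib

set_option autoImplicit false

namespace Pool.Agent.Results.MP_27f3b7_al.Pos

open Finset
open scoped Pointwise

lemma tail (x : ℚ) (h0 : 0 < x) (h1 : x < 1) (n k : ℕ) (hn : 1 ≤ n) :
    ∑ a ∈ Ico n (n + k), ((a : ℚ) - 1) * x ^ a ≤ x ^ n * ((n - 1) / (1 - x) + x / (1 - x) ^ 2) := by
  have h2 : 0 < 1 - x := by linarith
  have : ∑ a ∈ Ico n (n + k), ((a : ℚ) - 1) * x ^ a = x ^ n * ((n - 1) / (1 - x) + x / (1 - x) ^ 2)
      - x ^ (n + k) * ((n + k - 1) / (1 - x) + x / (1 - x) ^ 2) := by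
    induction k with
    | zero => simp
    | succ k ih =>
      rw [← add_assoc, sum_Ico_succ_top (by omega), ih]
      push_cast
      field_simp
      ring
  rw [this]
  have h3 : (1 : ℚ) ≤ n := by exact_mod_cast hn
  have h4 : (0 : ℚ) ≤ n + k - 1 := by linarith [(k.cast_nonneg : (0 : ℚ) ≤ k)]
  exact sub_le_self _ (by positivity)

lemma big {p k n : ℕ} (hp : 2 ≤ p) (hn : 1 ≤ n) (S : Finset ℕ) (a : ℕ → ℕ)
    (h : ∀ r ∈ S, r.Prime ∧ p ^ k < r ∧ n ≤ a r ∧ r ∣ p ^ a r - 1) (x : ℚ) (h0 : 0 < x)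
    (h1 : x < 1) : k * ∑ r ∈ S, x ^ a r ≤ x ^ n * ((n - 1) / (1 - x) + x / (1 - x) ^ 2) := by
  refine le_trans ?_ (tail x h0 h1 n (S.sup a + 1) hn)
  rw [← sum_fiberwise_of_maps_to (g := a) (t := Ico n (n + (S.sup a + 1))) fun r hr =>
    mem_Ico.2 ⟨(h r hr).2.2.1, by have := le_sup (f := a) hr; omega⟩, mul_sum]
  refine sum_le_sum fun b hb => ?_
  rw [sum_congr rfl fun r hr => by rw [(mem_filter.1 hr).2], sum_const, nsmul_eq_mul, ← mul_assoc]
  refine mul_le_mul_of_nonneg_right ?_ (by positivity)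
  have hb1 : 1 < p ^ b := Nat.one_lt_pow (by have := (mem_Ico.1 hb).1; omega) hp
  have d := prod_primes_dvd (s := S.filter (a · = b)) (p ^ b - 1)
    (fun r hr => (h r (mem_filter.1 hr).1).1.prime)
    fun r hr => (mem_filter.1 hr).2 ▸ (h r (mem_filter.1 hr).1).2.2.2
  have e := pow_card_le_prod (S.filter (a · = b)) id (p ^ k)
    fun r hr => (h r (mem_filter.1 hr).1).2.1.le
  have f := Nat.le_of_dvd (by omega) d
  have g : k * #(S.filter (a · = b)) < b := by
    rw [← Nat.pow_lt_pow_iff_right hp, pow_mul]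
    simp only [id] at e
    omega
  have : ((k * #(S.filter (a · = b)) + 1 : ℕ) : ℚ) ≤ b := by exact_mod_cast g
  push_cast at this
  linarith

def g (r : ℕ) : ℕ := if r = 2 then 1 else if r = 3 then 2 else if r = 7 then 3 else
  if r = 5 then 4 else if r = 31 then 5 else if r = 127 then 7 else 8

lemma num {p : ℕ} (hp : p.Prime) (S : Finset ℕ) (a : ℕ → ℕ)
    (h : ∀ r ∈ S, r.Prime ∧ 1 ≤ a r ∧ (r = p ∨ r ∣ p ^ a r - 1)) :
    ∑ r ∈ S, ((p : ℚ)⁻¹) ^ a r < 1 := by
  rcases hp.two_le.eq_or_lt with rfl | h3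
  · have k : ∀ a < 8, ∀ r < 128, 1 ≤ a ∧ r.Prime ∧ (r = 2 ∨ r ∣ 2 ^ a - 1) → g r ≤ a := by
      decide +kernel
    have hg : ∀ r ∈ S, g r ≤ a r := fun r hr => by
      obtain ⟨h1, h2, h3⟩ := h r hr
      by_cases h8 : a r < 8
      · refine k _ h8 r ?_ ⟨h2, h1, h3⟩
        rcases h3 with rfl | h3
        · omega
        · have : 2 ^ a r ≤ 2 ^ 7 := Nat.pow_le_pow_right two_pos (by omega)
          have := Nat.le_of_dvd (by have := Nat.one_lt_two_pow (n := a r) (by omega); omega) h3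
          omega
      · unfold g; split_ifs <;> omega
    let T : Finset ℕ := {2, 3, 5, 7, 31, 127}
    have b := big (p := 2) (k := 3) (n := 8) le_rfl (by omega) (S.filter (· ∉ T)) a (fun r hr => by
      obtain ⟨h1, h2⟩ := mem_filter.1 hr
      obtain ⟨h3, h4, h5⟩ := h r h1
      have h6 := hg r h1
      simp [T] at h2
      simp [g, h2] at h6
      refine ⟨h3, by_contra fun h7 => ?_, h6, h5.resolve_left h2.1⟩
      have : r ≤ 8 := by omega
      interval_cases r <;> simp_all (config := {decide := true})) 2⁻¹ (by norm_num) (by norm_num)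
    have c : ∑ r ∈ S.filter (· ∈ T), (2⁻¹ : ℚ) ^ a r ≤ ∑ r ∈ T, (2⁻¹ : ℚ) ^ g r :=
      (sum_le_sum fun r hr => pow_le_pow_of_le_one (by norm_num) (by norm_num)
        (hg r (mem_filter.1 hr).1)).trans (sum_le_sum_of_subset_of_nonneg
          (fun r hr => (mem_filter.1 hr).2) fun _ _ _ => by positivity)
    have d : ∑ r ∈ T, (2⁻¹ : ℚ) ^ g r = 125 / 128 := by simp [T, g]; norm_num
    rw [← sum_filter_add_sum_filter_not S (· ∈ T)]
    norm_num at b c d ⊢
    linarith
  · have h4 : (3 : ℚ) ≤ p := by exact_mod_cast h3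
    have x0 : (0 : ℚ) < (p : ℚ)⁻¹ := by positivity
    have x1 : (p : ℚ)⁻¹ ≤ 3⁻¹ := inv_anti₀ (by norm_num) h4
    have b := big (p := p) (k := 1) (n := 2) h3.le (by omega) (S.filter (¬ · ≤ p)) a (fun r hr => by
      obtain ⟨h1, h2⟩ := mem_filter.1 hr
      obtain ⟨h5, h6, h7⟩ := h r h1
      replace h7 := h7.resolve_left (by omega)
      refine ⟨h5, by simpa using h2, by_contra fun h8 => ?_, h7⟩
      rw [show a r = 1 by omega, pow_one] at h7
      have := Nat.le_of_dvd (by omega) h7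
      omega) _ x0 (by linarith)
    have c : ∑ r ∈ S.filter (· ≤ p), (p : ℚ)⁻¹ ^ a r ≤ ∑ r ∈ Icc 2 p, (p : ℚ)⁻¹ :=
      (sum_le_sum fun r hr => pow_le_of_le_one x0.le (by linarith)
        (by have := (h r (mem_filter.1 hr).1).2.1; omega)).trans (sum_le_sum_of_subset_of_nonneg
          (fun r hr => mem_Icc.2 ⟨(h r (mem_filter.1 hr).1).1.two_le, (mem_filter.1 hr).2⟩)
          fun _ _ _ => x0.le)
    rw [sum_const, Nat.card_Icc, nsmul_eq_mul, show p + 1 - 2 = p - 1 by omega,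
      Nat.cast_sub hp.one_le, sub_mul, mul_inv_cancel₀ (by positivity)] at c
    rw [← sum_filter_add_sum_filter_not S (· ≤ p)]
    generalize (p : ℚ)⁻¹ = x at *
    have h5 : 0 < 1 - x := by linarith
    have : x ^ 2 * ((((2 : ℕ) : ℚ) - 1) / (1 - x) + x / (1 - x) ^ 2) < x := by
      rw [show x ^ 2 * ((((2 : ℕ) : ℚ) - 1) / (1 - x) + x / (1 - x) ^ 2) = x * (x / (1 - x) ^ 2) by
        field_simp; ring]
      exact mul_lt_of_lt_one_right x0 ((div_lt_one (by positivity)).2 (by nlinarith))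
    norm_num at b c this ⊢
    linarith

lemma pg {H : Type} [Group H] [Finite H] {p : ℕ} (hp : p.Prime) (hH : IsPGroup p H) (S : Finset ℕ)
    (b : ℕ → Monoid.End H) (y : ℕ → H) (h : ∀ r ∈ S, r.Prime ∧ b r ≠ 1 ∧ b r ^ r = 1) :
    ∃ x, ∀ r ∈ S, b r ((y r)⁻¹ * x) ≠ (y r)⁻¹ * x := by
  classical
  by_contra! hc
  have := Fact.mk hp
  have := Fintype.ofFinite H
  let C : ℕ → Subgroup H := fun r => MonoidHom.eqLocus (b r) (MonoidHom.id H)
  have h1 := Subgroup.one_le_sum_inv_index_of_leftCoset_cover (H := C) (g := y) (s := S)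
    (Set.eq_univ_of_forall fun x => by
      obtain ⟨r, h1, h2⟩ := hc x
      exact Set.mem_biUnion h1 (Set.mem_smul_set_iff_inv_smul_mem.2 h2))
  choose a ha using fun r => hH.index (C r)
  refine h1.not_gt ((sum_congr rfl fun r _ => by rw [ha, Nat.cast_pow, inv_pow]).trans_lt
    (num hp S a fun r hr => ?_))
  obtain ⟨h2, h3, h4⟩ := h r hr
  refine ⟨h2, Nat.pos_of_ne_zero fun e => h3 (MonoidHom.ext fun x => ?_), ?_⟩
  · have := ha r
    rw [e, pow_zero, Subgroup.index_eq_one] at this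
    exact (this ▸ Subgroup.mem_top x : x ∈ C r)
  have := Fact.mk h2
  have h5 := Equiv.Perm.card_fixedPoints_modEq (f := (b r : H → H)) (p := r) (n := 1) (by
    rw [pow_one]
    funext x
    have := congrArg (· x) h4
    simp only [Monoid.End.coe_pow] at this
    exact (congrFun (hom_coe_pow (F := Function.End H) (fun f => f) rfl (fun _ _ => rfl) _ _)
      x).trans this)
  obtain ⟨m, hm⟩ := (hH.to_subgroup (C r)).exists_card_eq
  have h6 := (C r).card_mul_index
  rw [← Nat.card_eq_fintype_card, ← Nat.card_eq_fintype_card, ← h6,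
    show Nat.card (Function.fixedPoints (b r : H → H)) = Nat.card (C r) from rfl, ha, hm] at h5
  have h7 := (Nat.modEq_iff_dvd' (Nat.le_mul_of_pos_right _ (pow_pos hp.pos _))).1 h5.symm
  rw [← Nat.mul_sub_one, h2.dvd_mul] at h7
  exact h7.imp_left fun h8 => (Nat.prime_dvd_prime_iff_eq h2 hp).1 (h2.dvd_of_dvd_pow h8)

lemma pi {G ι : Type} [Group G] [Finite ι] {K : ι → Type} [∀ i, Group (K i)] [∀ i, Finite (K i)]
    (e : (∀ i, K i) ≃* G) (q : ι → ℕ) (hq : q.Injective) (hp : ∀ i, (q i).Prime)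
    (hK : ∀ i, IsPGroup (q i) (K i)) (S : Finset ℕ)
    (b : ℕ → Monoid.End G) (y : ℕ → G) (h : ∀ r ∈ S, r.Prime ∧ b r ≠ 1 ∧ b r ^ r = 1) :
    ∃ x, ∀ r ∈ S, b r ((y r)⁻¹ * x) ≠ (y r)⁻¹ * x := by
  classical
  let φ : Monoid.End G → ∀ p, G →* K p := fun β p =>
    (Pi.evalMonoidHom K p).comp (e.symm.toMonoidHom.comp β)
  let res : Monoid.End G → ∀ p, Monoid.End (K p) := fun β p =>
    (φ β p).comp (e.toMonoidHom.comp (MonoidHom.mulSingle K p))
  have key : ∀ (β : Monoid.End G) p x, e.symm (β x) p = res β p (e.symm x p) := fun β p x => by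
    have : (φ β p).comp e.toMonoidHom = (res β p).comp (Pi.evalMonoidHom K p) := by
      refine MonoidHom.pi_ext fun j z => ?_
      by_cases hj : j = p
      · subst hj
        simp [res]
      · obtain ⟨k, hk⟩ := hK j z
        obtain ⟨l, hl⟩ := hK p ((φ β p).comp e.toMonoidHom (Pi.mulSingle j z))
        have h1 : ((φ β p).comp e.toMonoidHom (Pi.mulSingle j z)) ^ q j ^ k = 1 := by
          rw [← map_pow, ← Pi.mulSingle_pow, hk, Pi.mulSingle_one, map_one]
        rw [(pow_eq_one_iff_of_coprime (((Nat.coprime_primes (hp j) (hp p)).2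
          (hq.ne hj)).pow k l)).1 ⟨h1, hl⟩]
        simp [Pi.mulSingle_eq_of_ne' hj]
    have h1 : e.symm (β (e (e.symm x))) p = res β p (e.symm x p) := congrArg (· (e.symm x)) this
    rwa [e.apply_symm_apply] at h1
  have kp : ∀ (β : Monoid.End G) p n x, e.symm ((β ^ n) x) p = (res β p ^ n) (e.symm x p) := fun β p n => by
    induction n with
    | zero => simp
    | succ n ih => intro x; rw [pow_succ', pow_succ']; exact (key β p _).trans (congrArg _ (ih x))
  have hc : ∀ r ∈ S, ∃ p, res (b r) p ≠ 1 := fun r hr => by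
    by_contra! hc
    refine (h r hr).2.1 (MonoidHom.ext fun x => e.symm.injective (funext fun p => ?_))
    exact (key ..).trans (by rw [hc]; rfl)
  choose c hc using hc
  choose x hx using fun p => pg (hp p) (hK p) (S.filter fun r => ∃ hr, c r hr = p)
    (fun r => res (b r) p) (fun r => e.symm (y r) p) fun r hr => by
      obtain ⟨h1, h2, h3⟩ := mem_filter.1 hr
      refine ⟨(h r h1).1, h3 ▸ hc r h2, MonoidHom.ext fun z => ?_⟩
      have h4 := (kp (b r) p r (e (Pi.mulSingle p z))).symm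
      rw [(h r h1).2.2, e.symm_apply_apply, Pi.mulSingle_eq_same] at h4
      exact h4.trans (by simp; rfl)
  refine ⟨e x, fun r hr h1 => hx (c r hr) r (mem_filter.2 ⟨hr, hr, rfl⟩) ?_⟩
  simpa [h1] using (key (b r) (c r hr) ((y r)⁻¹ * e x)).symm

lemma nil {G : Type} [Group G] [Finite G] [Group.IsNilpotent G] (S : Finset ℕ)
    (b : ℕ → Monoid.End G) (y : ℕ → G) (h : ∀ r ∈ S, r.Prime ∧ b r ≠ 1 ∧ b r ^ r = 1) :
    ∃ x, ∀ r ∈ S, b r ((y r)⁻¹ * x) ≠ (y r)⁻¹ * x := by
  obtain ⟨e⟩ : Nonempty ((∀ p : (Nat.card G).primeFactors, ∀ P : Sylow p G, (↑P : Subgroup G)) ≃* G) :=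
    ((Group.isNilpotent_of_finite_tfae (G := G)).out 0 4).1 ‹_›
  refine pi e _ Subtype.val_injective (fun p => Nat.prime_of_mem_primeFactors p.2) (fun p x => ?_)
    S b y h
  choose k hk using fun P : Sylow p G => P.isPGroup' (x P)
  obtain ⟨n, hn⟩ := Finite.bddAbove_range k
  refine ⟨n, funext fun P => ?_⟩
  obtain ⟨c, hc⟩ := pow_dvd_pow p.1 (hn ⟨P, rfl⟩)
  rw [Pi.pow_apply, hc, pow_mul, hk, one_pow, Pi.one_apply]

theorem result (G : Type) [Group G] [Finite G] [Group.IsNilpotent G] (α : MulAut G) (t : G)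
    (A : Equiv.Perm G) (hA : ∀ x, A x = t * α x) :
    ∃ x, Function.minimalPeriod A x = orderOf A := by
  classical
  have h0 := orderOf_pos A
  have hs : ∀ n : ℕ, ∃ s, ∀ x, (A ^ n) x = s * (α ^ n) x := fun n => by
    induction n with
    | zero => exact ⟨1, by simp⟩
    | succ n ih =>
      obtain ⟨s, hs⟩ := ih
      exact ⟨t * α s, fun x => by simp [pow_succ', hs, hA, mul_assoc]⟩
  choose s hs using hs
  have h1 : α ^ orderOf A = 1 := by
    have := hs (orderOf A)
    simp only [pow_orderOf_eq_one, Equiv.Perm.one_apply] at this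
    have h2 := this 1
    rw [map_one, mul_one] at h2
    exact MulEquiv.ext fun x => by simpa [← h2] using (this x).symm
  set m := orderOf A
  let y : ℕ → G := fun r => Classical.epsilon fun y => (A ^ (m / r)) y = y
  obtain ⟨x, hx⟩ := nil (m.primeFactors.filter fun r => ∃ y, (A ^ (m / r)) y = y)
    (fun r => (α ^ (m / r)).toMonoidHom) y fun r hr => by
      obtain ⟨h2, z, h3⟩ := mem_filter.1 hr
      have h4 := Nat.prime_of_mem_primeFactors h2
      have h5 := Nat.dvd_of_mem_primeFactors h2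
      refine ⟨h4, fun e => ?_, ?_⟩
      · have h6 : ∀ x, (α ^ (m / r)) x = x := fun x => congrArg (· x) e
        rw [hs, h6, mul_eq_right] at h3
        refine (Nat.div_lt_self h0 h4.one_lt).not_ge (orderOf_le_of_pow_eq_one
          (Nat.div_pos (Nat.le_of_dvd h0 h5) h4.pos) (Equiv.ext fun x => ?_))
        rw [hs, h3, h6, one_mul, Equiv.Perm.one_apply]
      · have : ∀ n : ℕ, (show Monoid.End G from (α ^ (m / r)).toMonoidHom) ^ n =
            ((α ^ (m / r)) ^ n).toMonoidHom := fun n => by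
          induction n with
          | zero => rfl
          | succ n ih => rw [pow_succ, pow_succ, ih]; rfl
        rw [this, ← pow_mul, Nat.div_mul_cancel h5, h1]
        rfl
  refine ⟨x, by_contra fun hd => ?_⟩
  obtain ⟨c, hc⟩ : Function.minimalPeriod A x ∣ m := Function.IsPeriodicPt.minimalPeriod_dvd (by
    rw [Function.IsPeriodicPt, Function.IsFixedPt, Equiv.Perm.iterate_eq_pow, pow_orderOf_eq_one]
    rfl)
  obtain ⟨r, h2, k, rfl⟩ := Nat.exists_prime_and_dvd (n := c) (by rintro rfl; exact hd (by omega))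
  have h3 : (A ^ (m / r)) x = x := by
    rw [← Equiv.Perm.iterate_eq_pow, Nat.div_eq_of_eq_mul_right h2.pos
      (hc.trans (mul_left_comm ..))]
    exact (Function.isPeriodicPt_minimalPeriod A x).mul_const k
  have h4 : (A ^ (m / r)) (y r) = y r := Classical.epsilon_spec (p := fun y => (A ^ (m / r)) y = y) ⟨x, h3⟩
  refine hx r (mem_filter.2 ⟨Nat.mem_primeFactors.2 ⟨h2, ⟨_, hc.trans (mul_left_comm ..)⟩, h0.ne'⟩,
    x, h3⟩) ?_
  rw [hs, ← eq_inv_mul_iff_mul_eq] at h3 h4
  change (α ^ (m / r)) _ = _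
  rw [map_mul, map_inv, h3, h4]
  group

end Pool.Agent.Results.MP_27f3b7_al.Pos
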